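import Pool.Agent.MT100B.Defs
import Pool.Agent.MT100.DefsH
import Pool.Agent.MT100.Stmts

/-! Statements of the modules of MT100B (even weight).  Paper: PAPER_MT100B.md. -/

set_option autoImplicit false

namespace Pool.Agent.MT100B

open Matrix Polynomial Pool.Agent.MT100 Pool.Agent.Helper78_MT

universe u v

/-! ### Linear algebra -/

/-- EXM: the exterior square -/
def ExmStmt : Prop :=
  (∀ (r : ℕ) (R : Type) [CommRing R] (M M' : Matrix (Fin r) (Fin r) R),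
    ex (M * M') = ex M * ex M') ∧
  (∀ (r : ℕ) (R : Type) [CommRing R], ex (1 : Matrix (Fin r) (Fin r) R) = 1) ∧
  (∀ (r : ℕ) (R R' : Type) [CommRing R] [CommRing R'] (f : R →+* R')
    (M : Matrix (Fin r) (Fin r) R), ex (M.map f) = (ex M).map f) ∧
  (∀ (r : ℕ) (R : Type) [CommRing R] (M : Matrix (Fin r) (Fin r) R) (F G : Fin r → R) (β : AI r),
    (M *ᵥ F) β.1.1 * (M *ᵥ G) β.1.2 - (M *ᵥ F) β.1.2 * (M *ᵥ G) β.1.1 =
      ∑ α : AI r, ex M β α * (F α.1.1 * G α.1.2 - F α.1.2 * G α.1.1))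

/-- QUA: a linear functional which vanishes on the exterior squares of all products of the
reflections is zero -/
def QuaStmt : Prop :=
  ∀ (s : ℕ) (v l : Fin (2 * s + 1) → ℝ) (c : ℝ), 2 ≤ s →
    l = c • ((J0 (2 * s + 1)).map (fun x => (x : ℝ)) *ᵥ v) → l ⬝ᵥ v = 1 →
    l ⟨0, Nat.succ_pos _⟩ ≠ 0 → v ⟨2 * s, Nat.lt_succ_self _⟩ ≠ 0 →
    ∀ C : Matrix (AI (2 * s + 1)) (AI (2 * s + 1)) ℝ,
      (∀ L : List ℝ, ∑ β, ∑ α, C β α * ex ((L.map (refl v l)).prod) β α = 0) → C = 0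

/-! ### The hypergeometric system of odd order -/

/-- HYP: the differential equation -/
def HypStmt : Prop :=
  ∀ D : Dat, (∀ i j, PowerSeries.constantCoeff (Hyp D i j) = if i = j then 1 else 0) ∧
    (((1 - C D.lam * X : ℚ[X]) : PowerSeries ℚ) * PowerSeries.X) • (Hyp D).map dv =
      (A0 D).map (fun p => (p : PowerSeries ℚ)) * Hyp D -
        ((1 - C D.lam * X : ℚ[X]) : PowerSeries ℚ) •
          (Hyp D * (Nsh (ro D)).map (fun x => (x : PowerSeries ℚ)))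

/-- HGT: arithmetic of the coefficients -/
def HgtStmt : Prop :=
  ∀ D : Dat, ∀ a l, GType (Hyp D a l)

/-- HGR: growth of the coefficients -/
def HgrStmt : Prop :=
  ∀ D : Dat, ∃ C : ℕ, ∀ a l k,
    |PowerSeries.coeff k (Hyp D a l)| ≤ (C : ℚ) * ((k : ℚ) + 1) ^ C * D.lam ^ k

/-- HG0: the coefficients of the holomorphic solution (the growth is `k^{-s-1/2}`) -/
def Hg0Stmt : Prop :=
  ∀ D : Dat, (∀ (a : Fin (ro D)) (k : ℕ), PowerSeries.coeff k (Hyp D a (fz D)) =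
      (k : ℚ) ^ (a : ℕ) * PowerSeries.coeff k (Hyp D (fz D) (fz D))) ∧
    ∃ c : ℚ, 0 < c ∧ ∀ k : ℕ, 1 ≤ k →
      c * D.lam ^ k ≤ PowerSeries.coeff k (Hyp D (fz D) (fz D)) * (k : ℚ) ^ (D.s + 1)

/-- PAI: the pairing -/
def PaiStmt : Prop :=
  ∀ D : Dat, (Jm D)ᵀ = Jm D ∧
    (Hyp D)ᵀ * (Jm D).map (fun p => (p : PowerSeries ℚ)) * Hyp D =
      (J0 (ro D)).map (fun x => PowerSeries.C x)

/-- TRA: the translated systems -/
def TraStmt : Prop := ∀ (D : Dat) (κ : ℕ), IsG (Tr D κ)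

/-- SYS: exterior squares of systems -/
def SysStmt : Prop :=
  ∀ (r : ℕ) (H : Matrix (Fin r) (Fin r) (PowerSeries ℚ)), IsG H → IsG (ex H)

/-- VAL: the values of the translated systems -/
def ValStmt : Prop :=
  ∀ (D : Dat) (κ : ℕ), ∀ᶠ w : ℝ in Filter.atTop,
    W D (w - κ) = (Tr D κ).map (fun f => ev f w⁻¹) * en (ro D) (-Real.log w)

/-- ANA: the fundamental matrix on `(λ, ∞)` -/
def AnaStmt : Prop :=
  ∀ D : Dat, ∀ w : ℝ, (D.lam : ℝ) < w →
    (∀ i j, AnalyticAt ℝ (fun x => W D x i j) w) ∧ IsUnit (W D w).det ∧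
    (W D w)ᵀ * (Jm D).map (fun p => (p.map (algebraMap ℚ ℝ)).eval w⁻¹) * W D w =
      (J0 (ro D)).map (fun x => (x : ℝ)) ∧
    (∀ i j, HasDerivAt (fun x => W D x i j)
      (-((w - D.lam)⁻¹ *
        (((A0 D).map (fun p => (p.map (algebraMap ℚ ℝ)).eval w⁻¹)) * W D w) i j)) w)

/-- SQR: the square root is not meromorphic -/
def SqrStmt : Prop :=
  ∀ f g : ℝ → ℝ, MerG f → MerG g →
    (∀ᶠ u in nhdsWithin (0 : ℝ) (Set.Ioi 0), f u + Real.sqrt u * g u = 0) →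
    (∀ᶠ u in nhdsWithin (0 : ℝ) (Set.Ioi 0), f u = 0) ∧
      ∀ᶠ u in nhdsWithin (0 : ℝ) (Set.Ioi 0), g u = 0

/-- CON: the conifold point -/
def ConStmt : Prop :=
  ∀ D : Dat, ∃ (v l : Fin (ro D) → ℝ) (A : ℝ → Matrix (Fin (ro D)) (Fin (ro D)) ℝ),
    (∀ a i, AnalyticAt ℝ (fun u => A u a i) 0) ∧
    (∀ a, MerG fun u => Real.sqrt u * (W D (D.lam + u) *ᵥ v) a) ∧ l ⬝ᵥ v = 1 ∧
    ∀ᶠ u in nhdsWithin (0 : ℝ) (Set.Ioi 0),
      W D (D.lam + u) = A u + vecMulVec (W D (D.lam + u) *ᵥ v) l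

/-- CYC: the vanishing vector is cyclic -/
def CycStmt : Prop :=
  ∀ (D : Dat) (v l : Fin (ro D) → ℝ) (A : ℝ → Matrix (Fin (ro D)) (Fin (ro D)) ℝ),
    (∀ a i, AnalyticAt ℝ (fun u => A u a i) 0) →
    (∀ a, MerG fun u => Real.sqrt u * (W D (D.lam + u) *ᵥ v) a) → l ⬝ᵥ v = 1 →
    (∀ᶠ u in nhdsWithin (0 : ℝ) (Set.Ioi 0),
      W D (D.lam + u) = A u + vecMulVec (W D (D.lam + u) *ᵥ v) l) →
    v (fl D) ≠ 0 ∧ l (fz D) ≠ 0 ∧
      ∃ c : ℝ, l = c • ((J0 (ro D)).map (fun x => (x : ℝ)) *ᵥ v)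

/-- PEE: no relation with coefficients polynomial in `w` and `log w` -/
def PeeStmt : Prop :=
  ∀ (D : Dat) (ι : Type) [Fintype ι] [DecidableEq ι] (κ : ι → ℕ), Function.Injective κ →
    ∀ c : (ι → AI (ro D)) → (ι → AI (ro D)) → Polynomial (Polynomial ℝ),
      (∀ᶠ w : ℝ in Filter.atTop, ∑ β, ∑ α, evalEval w (Real.log w) (c β α) *
        ∏ i, ex (W D (w - κ i)) (β i) (α i) = 0) → c = 0

/-- FRE: the freeness of the tensor products -/
def FreStmt : Prop :=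
  ∀ (D : Dat) (ι : Type) [Fintype ι] [DecidableEq ι] (κ : ι → ℕ), Function.Injective κ →
    FreeE (kr fun i => ex (Tr D (κ i)))

/-- DEN: the exceptional integers have density zero -/
def DenStmt : Prop :=
  ∀ (D : Dat) (P : Matrix (Fin (ro D)) (Fin (ro D)) ℂ), IsUnit P.det → DensZero {n | Exc D P n}

/-! ### Hodge structures and representations -/

/-- HOD: a polarised Hodge structure of even weight with `h^{w,0} = h^{w-1,1} = 1` and odd dimension,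
such that no nonzero rational alternating form vanishes at the two first period vectors, has the
largest possible Mumford-Tate group. -/
def HodStmt : Prop :=
  ∀ (n : Type) [Fintype n] [DecidableEq n] (w : ℕ) (E : Matrix n n ℚ)
    (V : ℕ → Submodule ℂ (n → ℂ)) (om om' : n → ℂ), Even w → 4 ≤ w → Odd (Fintype.card n) →
    PolHodge w E V →
    V w = Submodule.span ℂ {om} → V w ⊔ V (w - 1) = Submodule.span ℂ {om, om'} →
    Module.finrank ℂ (V w) = 1 → Module.finrank ℂ (V (w - 1)) = 1 →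
    (∀ q : Matrix n n ℚ, qᵀ = -q → om ⬝ᵥ (q.map (algebraMap ℚ ℂ) *ᵥ om') = 0 → q = 0) →
    ∀ (K : Type u) [Field K] [CharZero K], mtGroup w V K = similitudes E K

/-- LAD: big local monodromies, orthogonal case -/
def LadStmt : Prop :=
  ∀ (n : Type) [Fintype n] [DecidableEq n] (E : Matrix n n ℚ) (F : Type) (Γ : Type v)
    [Field F] [CharZero F] [Group Γ] (ρ : Γ →* GL n F), Eᵀ = E → IsUnit E.det →
    2 < Fintype.card n → Odd (Fintype.card n) → BigMonodromy E ρ →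
    ∀ (K : Type u) [Field K] [CharZero K] [Algebra F K], monodromy ρ K = similitudes E K

/-- MAIN -/
def MainStmt : Prop :=
  ∀ (D : Dat) (P : Matrix (Fin (ro D)) (Fin (ro D)) ℂ), IsUnit P.det →
    ∃ S : Set ℕ, DensZero S ∧ ∀ n : ℕ, (D.lam : ℝ) < n → n ∉ S →
      ∀ (E : Matrix (Fin (ro D)) (Fin (ro D)) ℚ) (V : ℕ → Submodule ℂ (Fin (ro D) → ℂ)),
        PolHodge (2 * D.s) E V →
        (∀ a : Fin (ro D), (⨆ p ∈ Set.Icc (2 * D.s - a) (2 * D.s), V p) =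
          Submodule.span ℂ {y | ∃ b : Fin (ro D), b ≤ a ∧ y = per D P n b}) →
        (∀ (K : Type u) [Field K] [CharZero K], mtGroup (2 * D.s) V K = similitudes E K) ∧
        ∀ (ℓ : ℕ) [Fact ℓ.Prime] (Γ : Type v) [Group Γ] (ρ : Γ →* GL (Fin (ro D)) ℚ_[ℓ]),
          BigMonodromy E ρ → ∀ (K : Type u) [Field K] [CharZero K] [Algebra ℚ_[ℓ] K],
            monodromy ρ K = mtGroup (2 * D.s) V K

end Pool.Agent.MT100B
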