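import Pool.Agent.MT100B.Stmts
import Pool.Agent.MT100.StmtsP

/-! MT100B with a polynomial parameter: the fibres at `z = 1/φ(n)`. -/

set_option autoImplicit false

namespace Pool.Agent.MT100B

open Matrix Polynomial Pool.Agent.MT100 Pool.Agent.Helper78_MT

universe u v x

/-- admissible parameters: the positive leading coefficient, and the largest real point `w₁` with
`φ (w₁) = λ` exists and is a simple root -/
structure AdmB (D : Dat) (φ : ℚ[X]) : Prop where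
  deg : 0 < φ.natDegree
  lead : 0 < φ.leadingCoeff
  root : ∃ w1 : ℝ, pv φ w1 = D.lam ∧ (∀ w, w1 < w → (D.lam : ℝ) < pv φ w) ∧
    pv (derivative φ) w1 ≠ 0

/-- the pulled back and translated fundamental matrix -/
noncomputable def TrP (D : Dat) (φ : ℚ[X]) (κ : ℕ) :
    Matrix (Fin (ro D)) (Fin (ro D)) (PowerSeries ℚ) :=
  (Hyp D).map (fun f => f.subst (mobp φ κ)) * en (ro D) (lgp φ κ)

/-- TRP: IsG -/
def TrpStmt : Prop := ∀ (D : Dat) (φ : ℚ[X]), 0 < φ.natDegree → ∀ κ : ℕ, IsG (TrP D φ κ)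

/-- VAP: values -/
def VapStmt : Prop :=
  ∀ (D : Dat) (φ : ℚ[X]), 0 < φ.natDegree → 0 < φ.leadingCoeff → ∀ κ : ℕ,
    ∀ᶠ w : ℝ in Filter.atTop, W D (pv φ (w - κ)) = (TrP D φ κ).map (fun f => ev f w⁻¹) *
      en (ro D) (-((φ.natDegree : ℝ) * Real.log w + Real.log (φ.leadingCoeff : ℝ)))

/-- COP: the largest real point `w₁` with `φ (w₁) = λ` -/
def CopStmt : Prop :=
  ∀ (D : Dat) (φ : ℚ[X]), AdmB D φ → ∃ w1 : ℝ, pv φ w1 = D.lam ∧
    (∀ w, w1 < w → (D.lam : ℝ) < pv φ w) ∧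
    ∃ (v l : Fin (ro D) → ℝ) (A : ℝ → Matrix (Fin (ro D)) (Fin (ro D)) ℝ),
      (∀ a i, MerG fun u => A u a i) ∧
      (∀ a, MerG fun u => Real.sqrt u * (W D (pv φ (w1 + u)) *ᵥ v) a) ∧
      (∀ᶠ u in nhdsWithin (0 : ℝ) (Set.Ioi 0),
        W D (pv φ (w1 + u)) = A u + vecMulVec (W D (pv φ (w1 + u)) *ᵥ v) l) ∧
      v (fl D) ≠ 0 ∧ l (fz D) ≠ 0 ∧ l ⬝ᵥ v = 1 ∧
      ∃ c : ℝ, l = c • ((J0 (ro D)).map (fun x => (x : ℝ)) *ᵥ v)

/-- PEP: no relation with coefficients polynomial in `w` and `log w`; the largest real point `w₁` with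
`φ (w₁) = λ` is assumed to be positive (DEP reduces to this case by a translation) -/
def PepStmt : Prop :=
  ∀ (D : Dat) (φ : ℚ[X]), AdmB D φ → (∃ x : ℝ, 0 < x ∧ pv φ x ≤ D.lam) →
    ∀ (ι : Type) [Fintype ι] [DecidableEq ι] (κ : ι → ℕ), Function.Injective κ →
    ∀ c : (ι → AI (ro D)) → (ι → AI (ro D)) → Polynomial (Polynomial ℝ),
      (∀ᶠ w : ℝ in Filter.atTop, ∑ β, ∑ α, evalEval w (Real.log w) (c β α) *
        ∏ i, ex (W D (pv φ (w - κ i))) (β i) (α i) = 0) → c = 0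

/-- FRP: freeness -/
def FrpStmt : Prop :=
  ∀ (D : Dat) (φ : ℚ[X]), AdmB D φ → (∃ x : ℝ, 0 < x ∧ pv φ x ≤ D.lam) →
    ∀ (ι : Type) [Fintype ι] [DecidableEq ι] (κ : ι → ℕ), Function.Injective κ →
      FreeE (kr fun i => ex (TrP D φ (κ i)))

/-- the vector of the periods of the form `θᵃ ω` at `z = 1/x`, for the rational structure given by
`P` -/
noncomputable def perx (D : Dat) (P : Matrix (Fin (ro D)) (Fin (ro D)) ℂ) (x : ℝ)
    (a : Fin (ro D)) : Fin (ro D) → ℂ :=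
  P *ᵥ fun i => ((W D x a i : ℝ) : ℂ)

/-- `x` is exceptional for `P` -/
def Excx (D : Dat) (P : Matrix (Fin (ro D)) (Fin (ro D)) ℂ) (x : ℝ) : Prop :=
  (D.lam : ℝ) < x ∧ ∃ q : AI (ro D) → ℚ, q ≠ 0 ∧
    ∑ β : AI (ro D), (q β : ℂ) * (perx D P x (fz D) β.1.1 * perx D P x (fo D) β.1.2 -
      perx D P x (fz D) β.1.2 * perx D P x (fo D) β.1.1) = 0

/-- DEP: windows and density -/
def DepStmt : Prop :=
  ∀ (D : Dat) (φ : ℚ[X]), AdmB D φ → ∃ n1 : ℕ → ℕ, ∀ P : Matrix (Fin (ro D)) (Fin (ro D)) ℂ,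
    IsUnit P.det →
    (∀ K n : ℕ, n1 K ≤ n →
      Nat.card {m : ℕ // Excx D P (pv φ m) ∧ n < m + K ∧ m ≤ n} ≤
        (ro D * (ro D - 1) / 2) ^ 2) ∧
    DensZero {n : ℕ | Excx D P (pv φ n)}

/-- The Hodge structure `V` of weight `r - 1` on `ℚʳ` has the Hodge filtration given by the periods
`P (θᵇ ω) (1/x)`. -/
def HasPer (D : Dat) (P : Matrix (Fin (ro D)) (Fin (ro D)) ℂ) (x : ℝ)
    (V : ℕ → Submodule ℂ (Fin (ro D) → ℂ)) : Prop :=
  ∀ a : Fin (ro D), (⨆ p ∈ Set.Icc (2 * D.s - a) (2 * D.s), V p) =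
    Submodule.span ℂ {y | ∃ b : Fin (ro D), b ≤ a ∧ y = perx D P x b}

/-- MAIN with a polynomial parameter -/
def MainPStmt : Prop :=
  ∀ (D : Dat) (φ : ℚ[X]), AdmB D φ → ∃ n1 : ℕ → ℕ, ∀ P : Matrix (Fin (ro D)) (Fin (ro D)) ℂ,
    IsUnit P.det → ∃ S : Set ℕ, DensZero S ∧
      (∀ K n : ℕ, n1 K ≤ n →
        Nat.card {m : ℕ // m ∈ S ∧ n < m + K ∧ m ≤ n} ≤ (ro D * (ro D - 1) / 2) ^ 2) ∧
      ∀ n : ℕ, (D.lam : ℝ) < pv φ n → n ∉ S →
        ∀ (E : Matrix (Fin (ro D)) (Fin (ro D)) ℚ) (V : ℕ → Submodule ℂ (Fin (ro D) → ℂ)),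
          PolHodge (2 * D.s) E V → HasPer D P (pv φ n) V →
          (∀ (K : Type u) [Field K] [CharZero K], mtGroup (2 * D.s) V K = similitudes E K) ∧
          ∀ (ℓ : ℕ) [Fact ℓ.Prime] (Γ : Type v) [Group Γ] (ρ : Γ →* GL (Fin (ro D)) ℚ_[ℓ]),
            BigMonodromy E ρ → ∀ (K : Type u) [Field K] [CharZero K] [Algebra ℚ_[ℓ] K],
              monodromy ρ K = mtGroup (2 * D.s) V K

end Pool.Agent.MT100B
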