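import Pool.Agent.MT100B.StmtsP
import Pool.Agent.Helper67_MT.Sym
import Pool.Agent.Helper47_MT.Eva
import Pool.Agent.Helper58_MT.Stm
import Pool.Agent.Helper39_MT.Gal
import Pool.Agent.Helper51_MT.Wrap
import Pool.Agent.Helper76_MT100.Fin
import Pool.Agent.Helper83_MT.Sys
import Pool.Agent.Helper83_MT.Ens
import Pool.Agent.Helper91_MT.Ltl
import Pool.Agent.Helper27_MT.Trg
import Pool.Agent.Helper26_MT100.Gdn
import Pool.Agent.Helper24_MT100B.Exm
import Pool.Agent.Helper65_MT100B.Hyp
import Pool.Agent.Helper65_MT100B.Vap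
import Pool.Agent.Helper39_MTB.Hgt
import Pool.Agent.Helper69_MTB.Hgr
import Pool.Agent.Helper90_MT100B.Hg0
import Pool.Agent.Helper90_MT100B.Trp
import Pool.Agent.Helper67_MTB.Pai
import Pool.Agent.Helper75_MTB.Ana
import Pool.Agent.Helper58_MTB.Sqr
import Pool.Agent.Helper34_MTB.Conif
import Pool.Agent.Helper94_MT100B.Cyc
import Pool.Agent.Helper6_MT100B.Qua
import Pool.Agent.Helper71_MTB.Pep
import Pool.Agent.Helper33_MTBP.Frp
import Pool.Agent.Helper26_MT100B.Dep
import Pool.Agent.Helper46_MTB.O3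
import Pool.Agent.Helper46_MTB.Sys
import Pool.Agent.Helper63_MT100B.MainP
import Pool.Agent.Helper98_MT.CopB
import Pool.Agent.Helper17_MTB.LadB
import Pool.Agent.Helper18_MT.NvaB2

/-! MT100B: assembly of the modules, polynomial parameter. -/

set_option autoImplicit false

namespace Pool.Agent.MT100B

open Pool.Agent.MT100

universe u v

theorem ana_all : AnaStmt := H75.ana H65.hyp H69.hgr (H67.pai H65.hyp)

theorem gfn_all : GfnStmt :=
  MT100.H76.gfn MT100.H47.eva Pool.Agent.Helper58_MT.recStmt Pool.Agent.Helper39_MT.gal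
    Pool.Agent.Helper51_MT.sieStmt Pool.Agent.Helper58_MT.zeaStmt Pool.Agent.Helper58_MT.zebStmt

theorem gdn_all : GdnStmt :=
  Pool.Agent.Helper26_MT100.gdn MT100.H47.eva gfn_all MT100.H83.sys

theorem trp_all : TrpStmt :=
  H90.trp MT100.H27.trg MT100.H83.ens H65.hyp H39.hgt (H67.pai H65.hyp)

theorem vap_all : VapStmt := H65V.vap MT100.H83.ens H39.hgt

theorem con_all : ConStmt := H34.con ana_all

theorem cyc_all : CycStmt := H94.cyc ana_all H58.sqr H90.hg0 H69.hgr

theorem cop_all : CopStmt := H98.cop con_all cyc_all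

theorem pep_all : PepStmt :=
  H71P.pep H24.exm (H6.qua H24.exm) MT100.H91.ltl H58.sqr cop_all ana_all vap_all trp_all MT100.H47.eva

theorem frp_all : FrpStmt := fun D φ hφ hx ι _ _ κ hκ =>
  H33P.frpAt H24.exm trp_all vap_all D φ hφ.deg hφ.lead ι κ (pep_all D φ hφ hx ι κ hκ)

theorem dep_all : DepStmt :=
  H26.dep H24.exm MT100.H47.eva H46.sys gdn_all trp_all vap_all frp_all

theorem mainP_all : MainPStmt.{u, v} := H63.mainP dep_all H46.hod H17.lad

theorem nva_all : H18.NvaStmt := H18.nva H39.hgt ana_all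

end Pool.Agent.MT100B
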