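import Pool.Agent.MT100.Defs

/-! Definitions for MT100B: the hypergeometric systems of odd order `2 s + 1` (even weight), attached to
the same data `D : Dat`, exterior squares of matrices. -/

set_option autoImplicit false

namespace Pool.Agent.MT100B

open Matrix Pool.Agent.MT100

/-! ### Exterior square of matrices -/

/-- pairs of indices `i < j` -/
abbrev AI (r : ℕ) : Type := {p : Fin r × Fin r // p.1 < p.2}

/-- the exterior square of a matrix: the matrix of the minors of size two -/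
def ex {r : ℕ} {R : Type*} [CommRing R] (M : Matrix (Fin r) (Fin r) R) :
    Matrix (AI r) (AI r) R :=
  fun β α => M β.1.1 α.1.1 * M β.1.2 α.1.2 - M β.1.1 α.1.2 * M β.1.2 α.1.1

/-! ### The hypergeometric system `θʳ - λ z (θ + 1/2) ∏ (θ + αᵢ) (θ + 1 - αᵢ)`, `r = 2 s + 1` -/

/-- the order -/
abbrev ro (D : Dat) : ℕ := 2 * D.s + 1

/-- the first index -/
def fz (D : Dat) : Fin (ro D) := ⟨0, Nat.succ_pos _⟩

/-- the second index -/
def fo (D : Dat) : Fin (ro D) := ⟨1, by have := D.two_le; show 1 < 2 * D.s + 1; omega⟩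

/-- the last index -/
def fl (D : Dat) : Fin (ro D) := ⟨2 * D.s, Nat.lt_succ_self _⟩

/-- the additional factor `∏_{j<k} (j + 1/2 + ε) / (j + 1 + ε)` -/
noncomputable def Ch (k : ℕ) : PowerSeries ℚ :=
  ∏ j ∈ Finset.range k, ((PowerSeries.C ((j : ℚ) + 1 / 2) + PowerSeries.X) *
    (PowerSeries.C ((j : ℚ) + 1) + PowerSeries.X)⁻¹)

/-- the coefficients `A_k(ε)` of the Frobenius solution -/
noncomputable def Ak (D : Dat) (k : ℕ) : PowerSeries ℚ := MT100.Ak D k * Ch k

/-- the holomorphic part of the fundamental matrix: the entry `(a,l)` is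
`∑ₖ zᵏ [εˡ] ((k + ε)ᵃ A_k(ε))` -/
noncomputable def Hyp (D : Dat) : Matrix (Fin (ro D)) (Fin (ro D)) (PowerSeries ℚ) :=
  fun a l => PowerSeries.mk fun k =>
    PowerSeries.coeff (l : ℕ) ((PowerSeries.C (k : ℚ) + PowerSeries.X) ^ (a : ℕ) * Ak D k)

/-- the fundamental matrix of the hypergeometric system at `z = 1/w`, for `w > λ`; the row `a` is
`θᵃ` of the Frobenius basis -/
noncomputable def W (D : Dat) (w : ℝ) : Matrix (Fin (ro D)) (Fin (ro D)) ℝ :=
  (Hyp D).map (fun f => ev f w⁻¹) * en (ro D) (-Real.log w)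

/-- the translated fundamental matrix: `W (w - κ) = Tr κ (1/w) exp (- log w N)` -/
noncomputable def Tr (D : Dat) (κ : ℕ) : Matrix (Fin (ro D)) (Fin (ro D)) (PowerSeries ℚ) :=
  (Hyp D).map (fun f => f.subst (mob κ)) * en (ro D) (lgs κ)

/-- the polynomial `(θ + 1/2) ∏ (θ + αᵢ) (θ + 1 - αᵢ)` -/
noncomputable def cf (D : Dat) : Polynomial ℚ :=
  MT100.cf D * (Polynomial.X + Polynomial.C (1 / 2))

/-- the matrix of the system: `(1 - λz) θ H = A0 H - (1 - λz) H N` -/
noncomputable def A0 (D : Dat) : Matrix (Fin (ro D)) (Fin (ro D)) (Polynomial ℚ) := fun a b =>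
  (if (a : ℕ) + 1 = b then 1 - Polynomial.C D.lam * Polynomial.X else 0) +
    (if (a : ℕ) + 1 = ro D then Polynomial.C (D.lam * (cf D).coeff b) * Polynomial.X else 0)

/-- the exponents at infinity in symmetric order: `βⱼ + β_{r-1-j} = 1` -/
def bet (D : Dat) (j : ℕ) : ℚ :=
  if h : j < D.s then D.al ⟨j, h⟩
  else if h : 2 * D.s - j < D.s then 1 - D.al ⟨2 * D.s - j, h⟩ else 1 / 2

/-- `∏_{j<i} (θ + βⱼ)` -/
noncomputable def pp (D : Dat) (i : ℕ) : Polynomial ℚ :=
  ∏ j ∈ Finset.range i, (Polynomial.X + Polynomial.C (bet D j))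

/-- the matrix of the pairing on the solutions -/
noncomputable def Jm (D : Dat) : Matrix (Fin (ro D)) (Fin (ro D)) (Polynomial ℚ) := fun a b =>
  Polynomial.C (J0 (ro D) a b) -
    Polynomial.C (D.lam * ∑ i ∈ Finset.range (ro D),
      (-1) ^ i * (pp D i).coeff a * (pp D (ro D - 1 - i)).coeff b) * Polynomial.X

/-- the vector of the periods of the form `θᵃ ω` at `z = 1/n`, for the rational structure given by
`P` -/
noncomputable def per (D : Dat) (P : Matrix (Fin (ro D)) (Fin (ro D)) ℂ) (n : ℕ) (a : Fin (ro D)) :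
    Fin (ro D) → ℂ :=
  P *ᵥ fun i => ((W D n a i : ℝ) : ℂ)

/-- `n` is exceptional for `P`: a nonzero rational alternating form vanishes at the first two period
vectors -/
def Exc (D : Dat) (P : Matrix (Fin (ro D)) (Fin (ro D)) ℂ) (n : ℕ) : Prop :=
  (D.lam : ℝ) < n ∧ ∃ q : AI (ro D) → ℚ, q ≠ 0 ∧
    ∑ β : AI (ro D), (q β : ℂ) * (per D P n (fz D) β.1.1 * per D P n (fo D) β.1.2 -
      per D P n (fz D) β.1.2 * per D P n (fo D) β.1.1) = 0

/-! ### The group generated by the reflections -/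

/-- `exp (a N)` over the complex numbers -/
noncomputable def eN (r : ℕ) (a : ℝ) : Matrix (Fin r) (Fin r) ℝ := en r a

/-- the conjugate reflection `exp (-aN) (1 - 2 v ⊗ l) exp (aN)` -/
noncomputable def refl {r : ℕ} (v l : Fin r → ℝ) (a : ℝ) : Matrix (Fin r) (Fin r) ℝ :=
  en r (-a) * (1 - (2 : ℝ) • vecMulVec v l) * en r a

end Pool.Agent.MT100B
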